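import Mathlib

/-!
# The locus of maximal Schmidt rank need not be locally closed

Over every algebraically closed field `K` we consider the family of cubic polynomials

`P_{a,b} = m² c + n² e + 1 + a c e + b y`

in the five variables `c, m, e, n, y`, which is parametrized by the affine plane.  Its rank is at
most three everywhere, it is two at the points `(a, 0)` with `a ≠ 0`, and it is three at the points
`(a, b)` with `b ≠ 0` and at the origin.

The lower bounds follow from the following principle: if the quotient of the polynomial ring by `P`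
is factorial and the leading form of `P` is prime, then `P` is not a sum of two products of
polynomials of smaller degree.
-/

set_option autoImplicit false

namespace Pool.Agent.Results.MP_60b600_ag.NotLocallyClosed

/-- `P` is a sum of `r` products of two polynomials of total degree less than `d`. -/
def IsSumOfProducts {n : ℕ} {K : Type*} [Field K] (d : ℕ) (P : MvPolynomial (Fin n) K) (r : ℕ) :
    Prop :=
  ∃ Q R : Fin r → MvPolynomial (Fin n) K,
    (∀ i, (Q i).totalDegree < d ∧ (R i).totalDegree < d) ∧ P = ∑ i, Q i * R i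

/-- The Schmidt rank of a polynomial. -/
noncomputable def rank {n : ℕ} {K : Type*} [Field K] (P : MvPolynomial (Fin n) K) : ℕ :=
  sInf {r | IsSumOfProducts P.totalDegree P r}

/-- The member `P_s` of the family `F` of polynomials in `n` variables over the affine space
`K ^ m`; the coefficients of `F` are polynomials in `m` variables. -/
noncomputable def member {n m : ℕ} {K : Type*} [Field K]
    (F : MvPolynomial (Fin n) (MvPolynomial (Fin m) K)) (s : Fin m → K) : MvPolynomial (Fin n) K :=
  MvPolynomial.map (MvPolynomial.eval s) F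

/-- The set of the points of `K ^ m` at which the rank of the members of a family is maximal. -/
def maxLocus {n m : ℕ} {K : Type*} [Field K]
    (F : MvPolynomial (Fin n) (MvPolynomial (Fin m) K)) : Set (Fin m → K) :=
  {t | ∀ s, rank (member F s) ≤ rank (member F t)}

/-- Zariski closed subsets of `K ^ m`. -/
def IsZariskiClosed {m : ℕ} {K : Type*} [Field K] (Z : Set (Fin m → K)) : Prop :=
  ∃ A : Set (MvPolynomial (Fin m) K), Z = {s | ∀ p ∈ A, MvPolynomial.eval s p = 0}

/-- Locally closed subsets of `K ^ m` for the Zariski topology. -/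
def IsZariskiLocallyClosed {m : ℕ} {K : Type*} [Field K] (U : Set (Fin m → K)) : Prop :=
  ∃ Z W : Set (Fin m → K), IsZariskiClosed Z ∧ IsZariskiClosed W ∧ U = Z \ W

/-! ### Factoriality -/

open Polynomial in
/-- A case of the lemma of Nagata. -/
theorem nagata {T S : Type*} [CommRing T] [IsDomain T] [UniqueFactorizationMonoid T]
    [IsNoetherianRing T] [CommRing S] (p h : T) (hp : Prime p)
    (hph : (Ideal.span {p, h}).IsPrime) (hdvd : ¬ p ∣ h) (k : ℕ) (hk : 1 ≤ k)
    (mk : T[X] →+* S) (hsurj : Function.Surjective mk)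
    (hmk0 : ∀ g, mk g = 0 ↔ C (p ^ k) * X + C h ∣ g) :
    ∃ (_ : IsDomain S), UniqueFactorizationMonoid S := by
  obtain ⟨F, hF⟩ : ∃ F : T[X], F = C (p ^ k) * X + C h := ⟨_, rfl⟩
  rw [← hF] at hmk0
  have hpk : p ^ k ≠ 0 := pow_ne_zero _ hp.ne_zero
  have hrel : IsRelPrime (p ^ k) h := by
    apply IsRelPrime.pow_left
    intro d hd1 hd2
    rcases (hp.irreducible.dvd_iff.1 hd1) with h1 | h1
    · exact h1
    · exact absurd (h1.dvd.trans hd2) hdvd
  have hFirr : Irreducible F := hF ▸ irreducible_C_mul_X_add_C hpk hrel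
  have hFp : Prime F := hFirr.prime
  have hFdeg : F.degree = 1 := by
    rw [hF]
    exact degree_linear hpk
  have hdom : IsDomain S := by
    have hnt : Nontrivial S := by
      refine ⟨0, 1, fun h01 => hFp.not_isUnit ?_⟩
      have := (hmk0 1).1 (by rw [map_one, h01])
      exact isUnit_of_dvd_one this
    have hnz : NoZeroDivisors S := by
      refine ⟨fun {a b} hab => ?_⟩
      obtain ⟨f, rfl⟩ := hsurj a
      obtain ⟨g, rfl⟩ := hsurj b
      rw [← map_mul, hmk0] at hab
      rw [hmk0, hmk0]
      exact hFp.dvd_or_dvd hab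
    exact NoZeroDivisors.to_isDomain S
  refine ⟨hdom, ?_⟩
  have hnoeth : IsNoetherianRing S := isNoetherianRing_of_surjective _ _ mk hsurj
  let ι : T →+* S := mk.comp C
  have hι : ∀ t, ι t = mk (C t) := fun _ => rfl
  have hinj : Function.Injective ι := by
    rw [injective_iff_map_eq_zero]
    intro t ht
    rw [hι, hmk0] at ht
    by_contra hne
    have h1 := degree_le_of_dvd ht (by simpa using hne)
    rw [hFdeg, degree_C hne] at h1
    exact absurd h1 (by decide)
  -- denominators
  have hden : ∀ s : S, ∃ (n : ℕ) (t : T), ι p ^ n * s = ι t := by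
    intro s
    obtain ⟨g, rfl⟩ := hsurj s
    induction g using Polynomial.induction_on' with
    | add f g hf hg =>
      obtain ⟨n1, t1, h1⟩ := hf
      obtain ⟨n2, t2, h2⟩ := hg
      refine ⟨n1 + n2, p ^ n2 * t1 + p ^ n1 * t2, ?_⟩
      rw [map_add, map_add, map_mul, map_mul, map_pow, map_pow, ← h1, ← h2, pow_add]
      ring
    | monomial n a =>
      refine ⟨k * n, a * (-h) ^ n, ?_⟩
      rw [hι, hι, ← map_pow]
      change mk _ * mk _ = mk _
      rw [← map_mul, ← sub_eq_zero, ← map_sub, hmk0]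
      have e1 : (C p ^ (k * n) * monomial n a - C (a * (-h) ^ n) : T[X]) =
          C a * ((C (p ^ k) * X) ^ n - (- C h) ^ n) := by
        rw [← C_mul_X_pow_eq_monomial]
        simp only [map_mul, map_pow, map_neg]
        ring
      rw [e1]
      refine Dvd.dvd.mul_left ?_ _
      have e2 : F = C (p ^ k) * X - (- C h) := by rw [hF]; ring
      rw [e2]
      exact sub_dvd_pow_sub_pow _ _ _
  -- the image of p is prime
  have hpp : Prime (ι p) := by
    have hne : ι p ≠ 0 := by
      intro h0
      exact hp.ne_zero (hinj (h0.trans (map_zero ι).symm))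
    rw [← Ideal.span_singleton_prime hne]
    have e : Ideal.span {ι p} = Ideal.map mk (Ideal.map C (Ideal.span {p, h})) := by
      rw [Ideal.map_span, Ideal.map_span, Set.image_pair, Set.image_pair]
      apply le_antisymm
      · rw [Ideal.span_le, Set.singleton_subset_iff]
        exact Ideal.subset_span (Set.mem_insert _ _)
      · rw [Ideal.span_le]
        rintro x (rfl | rfl)
        · exact Ideal.mem_span_singleton_self _
        · have h3 : mk (C h) = - (ι p * (ι p ^ (k - 1) * mk X)) := by
            have h4 : mk F = 0 := (hmk0 F).2 dvd_rfl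
            have h5 : mk F = ι p ^ k * mk X + mk (C h) := by
              rw [hF, map_add, map_mul, hι, map_pow, map_pow]
            have h6 : ι p ^ k = ι p * ι p ^ (k - 1) := by
              rw [← pow_succ', Nat.sub_add_cancel hk]
            rw [h4, h6] at h5
            linear_combination -h5
          rw [SetLike.mem_coe, h3, Ideal.mem_span_singleton]
          exact (Dvd.intro _ rfl).neg_right
    rw [e]
    apply Ideal.map_isPrime_of_surjective hsurj
    intro x hx
    rw [RingHom.mem_ker, hmk0, hF] at hx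
    obtain ⟨y, rfl⟩ := hx
    apply Ideal.mul_mem_right
    have m1 : C p ∈ Ideal.map C (Ideal.span {p, h}) :=
      Ideal.mem_map_of_mem _ (Ideal.subset_span (Set.mem_insert _ _))
    have m2 : C h ∈ Ideal.map C (Ideal.span {p, h}) :=
      Ideal.mem_map_of_mem _ (Ideal.subset_span (Set.mem_insert_of_mem _ rfl))
    refine Ideal.add_mem _ (Ideal.mul_mem_right _ _ ?_) m2
    rw [map_pow]
    exact Ideal.pow_mem_of_mem _ m1 _ hk
  apply UniqueFactorizationMonoid.iff_exists_prime_mem_of_isPrime.2
  intro I hI0 hIp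
  by_cases hpI : ι p ∈ I
  · exact ⟨_, hpI, hpp⟩
  have hJp : (I.comap ι).IsPrime := Ideal.comap_isPrime ι I
  have hJ0 : I.comap ι ≠ ⊥ := by
    obtain ⟨s, hsI, hs0⟩ := Submodule.exists_mem_ne_zero_of_ne_bot hI0
    obtain ⟨n, t, ht⟩ := hden s
    intro hbot
    have h1 : t ∈ I.comap ι := by
      rw [Ideal.mem_comap, ← ht]
      exact I.mul_mem_left _ hsI
    rw [hbot, Ideal.mem_bot] at h1
    rw [h1, map_zero, mul_eq_zero] at ht
    exact ht.elim (fun h2 => pow_ne_zero n hpp.ne_zero h2) hs0
  obtain ⟨q, hqJ, hq⟩ := hJp.exists_mem_prime_of_ne_bot hJ0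
  have hqI : ι q ∈ I := hqJ
  have hq0 : ι q ≠ 0 := fun h0 => hq.ne_zero (hinj (h0.trans (map_zero ι).symm))
  have hqp : ¬ q ∣ p := by
    intro hd
    obtain ⟨c, hc⟩ := hd
    apply hpI
    rw [hc, map_mul]
    exact I.mul_mem_right _ hqI
  obtain ⟨r, hr, hqr⟩ := (FiniteMultiplicity.of_not_isUnit hpp.not_isUnit hq0).exists_eq_pow_mul_and_not_dvd
  set e := multiplicity (ι p) (ι q) with he
  refine ⟨r, ?_, ?_, ?_, ?_⟩
  · have h1 : ι p ^ e * r ∈ I := hr ▸ hqI
    rcases hIp.mem_or_mem h1 with h2 | h2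
    · exact absurd (hIp.mem_of_pow_mem _ h2) hpI
    · exact h2
  · rintro rfl
    rw [mul_zero] at hr
    exact hq0 hr
  · intro hu
    have h1 : ι p ^ e * r ∈ I := hr ▸ hqI
    rcases hIp.mem_or_mem h1 with h2 | h2
    · exact hpI (hIp.mem_of_pow_mem _ h2)
    · exact hIp.ne_top (Ideal.eq_top_of_isUnit_mem _ h2 hu)
  · intro u v huv
    obtain ⟨w, hw⟩ := huv
    obtain ⟨n1, u0, hu0⟩ := hden u
    obtain ⟨n2, v0, hv0⟩ := hden v
    obtain ⟨n3, w0, hw0⟩ := hden w
    have h1 : ι (p ^ (e + n3) * (u0 * v0)) = ι (p ^ (n1 + n2) * (q * w0)) := by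
      simp only [map_mul, map_pow]
      rw [← hu0, ← hv0, ← hw0, hr]
      calc ι p ^ (e + n3) * (ι p ^ n1 * u * (ι p ^ n2 * v)) =
          ι p ^ (e + n3) * ι p ^ n1 * ι p ^ n2 * (u * v) := by ring
        _ = _ := by rw [hw]; ring
    have h2 := hinj h1
    have h3 : q ∣ p ^ (e + n3) * (u0 * v0) := by
      rw [h2]
      exact (Dvd.intro _ rfl).mul_left _
    have h4 : q ∣ u0 ∨ q ∣ v0 := by
      rcases hq.dvd_or_dvd h3 with h5 | h5
      · exact absurd (hq.dvd_of_dvd_pow h5) hqp
      · exact hq.dvd_or_dvd h5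
    have key : ∀ (n : ℕ) (x : S) (x0 : T), ι p ^ n * x = ι x0 → q ∣ x0 → r ∣ x := by
      intro n x x0 hx hqx
      obtain ⟨x1, rfl⟩ := hqx
      rw [map_mul, hr] at hx
      have h6 : ι p ^ n ∣ r * (ι p ^ e * ι x1) := ⟨x, by rw [hx]; ring⟩
      obtain ⟨z, hz⟩ := hpp.pow_dvd_of_dvd_mul_left n hqr h6
      refine ⟨z, ?_⟩
      apply mul_left_cancel₀ (pow_ne_zero n hpp.ne_zero)
      rw [hx]
      calc ι p ^ e * r * ι x1 = r * (ι p ^ e * ι x1) := by ring
        _ = _ := by rw [hz]; ring
    exact h4.imp (key n1 u u0 hu0) (key n2 v v0 hv0)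

/-! ### Leading forms -/

section Degree

open Polynomial

variable {σ K : Type*} [Field K]

/-- Multiply each variable by a new variable. -/
noncomputable def hom (σ K : Type*) [Field K] :
    MvPolynomial σ K →ₐ[K] Polynomial (MvPolynomial σ K) :=
  MvPolynomial.aeval (fun i => C (MvPolynomial.X i) * X)

theorem hom_X (i : σ) : hom σ K (MvPolynomial.X i) = C (MvPolynomial.X i) * X := by
  simp [hom]

theorem hom_C (a : K) : hom σ K (MvPolynomial.C a) = C (MvPolynomial.C a) := by
  rw [hom, MvPolynomial.aeval_C]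
  rfl

theorem eval_hom (f : MvPolynomial σ K) : (hom σ K f).eval 1 = f := by
  induction f using MvPolynomial.induction_on with
  | C a => rw [hom_C, eval_C]
  | add f g hf hg => rw [map_add, eval_add, hf, hg]
  | mul_X f i hf => rw [map_mul, eval_mul, hf, hom_X, eval_mul, eval_C, eval_X, mul_one]

theorem hom_injective : Function.Injective (hom σ K) := by
  intro f g h
  rw [← eval_hom f, ← eval_hom g, h]

theorem hom_ne_zero {f : MvPolynomial σ K} (hf : f ≠ 0) : hom σ K f ≠ 0 := by
  intro h
  exact hf (hom_injective (h.trans (map_zero _).symm))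

theorem hom_monomial (s : σ →₀ ℕ) (a : K) : hom σ K (MvPolynomial.monomial s a) =
    C (MvPolynomial.monomial s a) * X ^ (s.sum fun _ n => n) := by
  rw [hom, MvPolynomial.aeval_monomial, MvPolynomial.monomial_eq]
  simp only [mul_pow, Finsupp.prod, Finsupp.sum, Finset.prod_mul_distrib, Finset.prod_pow_eq_pow_sum,
    map_mul, map_prod, map_pow]
  rw [← mul_assoc]
  rfl

/-- the coefficients of `hom f` are homogeneous -/
theorem hom_coeff (f : MvPolynomial σ K) (k : ℕ) :
    hom σ K ((hom σ K f).coeff k) = C ((hom σ K f).coeff k) * X ^ k := by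
  induction f using MvPolynomial.induction_on' with
  | monomial s b =>
    rw [hom_monomial, coeff_C_mul, coeff_X_pow]
    split_ifs with h
    · subst h
      rw [mul_one, hom_monomial]
    · simp
  | add f g hf hg =>
    rw [map_add, coeff_add, map_add, hf, hg, map_add, add_mul]

theorem natDegree_hom_le (f : MvPolynomial σ K) : (hom σ K f).natDegree ≤ f.totalDegree := by
  rw [f.as_sum, map_sum]
  conv_rhs => rw [← f.as_sum]
  refine natDegree_sum_le_of_forall_le _ _ fun s hs => ?_
  rw [hom_monomial]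
  refine (natDegree_C_mul_X_pow_le _ _).trans ?_
  exact MvPolynomial.le_totalDegree hs

/-- The form of highest degree of a polynomial -/
noncomputable def top (f : MvPolynomial σ K) : MvPolynomial σ K := (hom σ K f).leadingCoeff

/-- `f` has the smallest degree modulo `P`. -/
def Least (P f : MvPolynomial σ K) : Prop := ∀ g, P ∣ g - f → (hom σ K f).degree ≤ (hom σ K g).degree

theorem exists_least (P f : MvPolynomial σ K) : ∃ g, P ∣ g - f ∧ Least P g := by
  let A : Set (WithBot ℕ) := {d | ∃ g, P ∣ g - f ∧ (hom σ K g).degree = d}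
  have hA : A.Nonempty := ⟨_, f, by simp, rfl⟩
  obtain ⟨d, ⟨g, hg, rfl⟩, hmin⟩ := WellFounded.has_min (wellFounded_lt (α := WithBot ℕ)) A hA
  refine ⟨g, hg, fun g' hg' => ?_⟩
  by_contra hlt
  push Not at hlt
  refine hmin _ ⟨g', ?_, rfl⟩ hlt
  have : g' - f = (g' - g) + (g - f) := by ring
  rw [this]
  exact dvd_add hg' hg

/-- the leading form of a polynomial of least degree is not divisible by that of `P` -/
theorem Least.not_dvd {P f : MvPolynomial σ K} (hf : Least P f) (hP : P ≠ 0) (hf0 : f ≠ 0) :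
    ¬ top P ∣ top f := by
  rintro ⟨q, hq⟩
  set a := (hom σ K P).natDegree with ha
  set n := (hom σ K f).natDegree with hn
  have h1 : hom σ K (top f) = C (top f) * X ^ n := hom_coeff f _
  have h2 : hom σ K (top P) = C (top P) * X ^ a := hom_coeff P _
  have hf1 : top f ≠ 0 := leadingCoeff_ne_zero.2 (hom_ne_zero hf0)
  have hP1 : top P ≠ 0 := leadingCoeff_ne_zero.2 (hom_ne_zero hP)
  have hq0 : q ≠ 0 := by
    rintro rfl
    exact hf1 (by rw [hq, mul_zero])
  have h3 : X ^ a * hom σ K q = C q * X ^ n := by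
    have h4 : hom σ K (top P) * hom σ K q = hom σ K (top f) := by rw [hq, map_mul]
    rw [h1, h2, hq, map_mul] at h4
    apply mul_left_cancel₀ (C_ne_zero.2 hP1)
    linear_combination h4
  have hle : a ≤ n := by
    have h5 := congrArg natDegree h3
    rw [natDegree_mul (pow_ne_zero _ X_ne_zero) (hom_ne_zero hq0), natDegree_X_pow,
      natDegree_C_mul_X_pow _ _ hq0] at h5
    omega
  have h6 : hom σ K q = C q * X ^ (n - a) := by
    apply mul_left_cancel₀ (pow_ne_zero a (X_ne_zero (R := MvPolynomial σ K)))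
    rw [h3]
    have : X ^ n = (X ^ a * X ^ (n - a) : Polynomial (MvPolynomial σ K)) := by
      rw [← pow_add, Nat.add_sub_cancel' hle]
    rw [this]
    ring
  have hlt := degree_sub_lt_left (p := hom σ K f) (q := hom σ K (P * q)) ?_ (hom_ne_zero hf0) ?_
  · rw [← map_sub] at hlt
    have h7 := hf (f - P * q) ⟨-q, by ring⟩
    exact absurd hlt (not_lt.2 h7)
  · rw [map_mul, h6, degree_mul, degree_C_mul_X_pow _ hq0, degree_eq_natDegree (hom_ne_zero hf0),
      degree_eq_natDegree (hom_ne_zero hP), ← ha, ← hn]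
    norm_cast
    omega
  · rw [map_mul, leadingCoeff_mul, h6, leadingCoeff_C_mul_X_pow]
    exact hq

theorem degree_mul_le {P : MvPolynomial σ K} (hP : Prime (top P)) (hP0 : P ≠ 0)
    {f g : MvPolynomial σ K} (hf : Least P f) (hg : Least P g) (u : MvPolynomial σ K)
    (hu : P ∣ u - f * g) : (hom σ K (f * g)).degree ≤ (hom σ K u).degree := by
  by_cases hfg : f * g = 0
  · rw [hfg, map_zero, degree_zero]
    exact bot_le
  have hf0 : f ≠ 0 := left_ne_zero_of_mul hfg
  have hg0 : g ≠ 0 := right_ne_zero_of_mul hfg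
  by_contra hlt
  push Not at hlt
  obtain ⟨k, hk⟩ := hu
  have h1 := leadingCoeff_sub_of_degree_lt' hlt
  rw [← map_sub, hk, map_mul, map_mul, leadingCoeff_mul, leadingCoeff_mul] at h1
  have h2 : top P ∣ top f * top g := ⟨- (hom σ K k).leadingCoeff, by
    simp only [top]
    linear_combination h1⟩
  rcases hP.dvd_or_dvd h2 with h3 | h3
  · exact hf.not_dvd hP0 hf0 h3
  · exact hg.not_dvd hP0 hg0 h3

theorem eq_zero_of_dvd {P f : MvPolynomial σ K} (h : P ∣ f)
    (hlt : (hom σ K f).degree < (hom σ K P).degree) : f = 0 := by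
  by_contra hf
  have := degree_le_of_dvd (_root_.map_dvd (hom σ K) h) (hom_ne_zero hf)
  exact absurd hlt (not_lt.2 this)

/-- If the quotient by `P` is factorial and the leading form of `P` is prime, then `P` is not a sum
of two products of polynomials of smaller degree. -/
theorem no_two {S : Type*} [CommRing S] [IsDomain S] [UniqueFactorizationMonoid S]
    (P : MvPolynomial σ K) (hP0 : P ≠ 0) (hP : Prime (top P))
    (mk : MvPolynomial σ K →+* S) (hsurj : Function.Surjective mk)
    (hker : ∀ g, mk g = 0 ↔ P ∣ g) (Q1 R1 Q2 R2 : MvPolynomial σ K)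
    (hQ1 : (hom σ K Q1).degree < (hom σ K P).degree)
    (hR1 : (hom σ K R1).degree < (hom σ K P).degree)
    (hQ2 : (hom σ K Q2).degree < (hom σ K P).degree)
    (hR2 : (hom σ K R2).degree < (hom σ K P).degree) : P ≠ Q1 * R1 + Q2 * R2 := by
  intro heq
  have h0 : mk Q1 * mk R1 = - mk Q2 * mk R2 := by
    have : mk P = 0 := (hker P).2 dvd_rfl
    rw [heq, map_add, map_mul, map_mul] at this
    linear_combination this
  have hmk : ∀ a : S, ∃ f, mk f = a ∧ Least P f := by
    intro a
    obtain ⟨f, rfl⟩ := hsurj a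
    obtain ⟨g, hg, hl⟩ := exists_least P f
    refine ⟨g, ?_, hl⟩
    rw [← sub_eq_zero, ← map_sub]
    exact (hker _).2 hg
  have hmk0 : ∀ f, (hom σ K f).degree < (hom σ K P).degree → mk f = 0 → f = 0 := fun f hf h =>
    eq_zero_of_dvd ((hker f).1 h) hf
  by_cases h1 : mk Q1 = 0
  · rw [h1, zero_mul] at h0
    rcases mul_eq_zero.1 h0.symm with h2 | h2
    · rw [hmk0 Q1 hQ1 h1, hmk0 Q2 hQ2 (neg_eq_zero.1 h2)] at heq
      exact hP0 (by rw [heq]; ring)
    · rw [hmk0 Q1 hQ1 h1, hmk0 R2 hR2 h2] at heq
      exact hP0 (by rw [heq]; ring)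
  obtain ⟨a, b, ⟨c, hc⟩, ⟨d, hd⟩, hab⟩ := exists_dvd_and_dvd_of_dvd_mul
    (show mk Q1 ∣ - mk Q2 * mk R2 from ⟨mk R1, h0.symm⟩)
  have hcd : mk R1 = c * d := by
    apply mul_left_cancel₀ h1
    rw [h0, hc, hd, hab]
    ring
  obtain ⟨a', rfl, ha⟩ := hmk a
  obtain ⟨b', rfl, hb⟩ := hmk b
  obtain ⟨c', rfl, hc'⟩ := hmk c
  obtain ⟨d', rfl, hd'⟩ := hmk d
  have key : ∀ u f g : MvPolynomial σ K, (hom σ K u).degree < (hom σ K P).degree →
      Least P f → Least P g → mk u = mk f * mk g → u = f * g := by
    intro u f g hu hf hg h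
    have h3 : P ∣ u - f * g := by
      rw [← hker, map_sub, map_mul, h, sub_self]
    have h4 := degree_mul_le hP hP0 hf hg u h3
    rw [← sub_eq_zero]
    apply eq_zero_of_dvd h3
    rw [map_sub]
    exact (degree_sub_le _ _).trans_lt (max_lt hu (h4.trans_lt hu))
  have e1 := key Q1 a' b' hQ1 ha hb hab
  have e2 := key R1 c' d' hR1 hc' hd' hcd
  have e3 := key (-Q2) a' c' (by rwa [map_neg, degree_neg]) ha hc' (by rw [map_neg]; exact hc)
  have e4 := key R2 b' d' hR2 hb hd' hd
  apply hP0
  have e5 : Q2 = - (a' * c') := by rw [← e3, neg_neg]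
  rw [heq, e1, e2, e4, e5]
  ring

end Degree


/-! ### The family -/

section Family

variable {K : Type*} [Field K]

open MvPolynomial in
/-- the members of the family -/
noncomputable def P (a b : K) : MvPolynomial (Fin 5) K :=
  X 1 ^ 2 * X 0 + X 3 ^ 2 * X 2 + 1 + C a * (X 2 * X 0) + C b * X 4

open MvPolynomial in
/-- the leading form -/
noncomputable def P3 (K : Type*) [Field K] : MvPolynomial (Fin 5) K :=
  X 1 ^ 2 * X 0 + X 3 ^ 2 * X 2

theorem isRelPrime_sq {T : Type*} [CommRing T] [IsDomain T] [UniqueFactorizationMonoid T] {p h : T}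
    (hp : Prime p) (hdvd : ¬ p ∣ h) : IsRelPrime (p ^ 2) h := by
  apply IsRelPrime.pow_left
  intro d hd1 hd2
  rcases (hp.irreducible.dvd_iff.1 hd1) with h1 | h1
  · exact h1
  · exact absurd (h1.dvd.trans hd2) hdvd

theorem prime_P3 : Prime (P3 K) := by
  have h0 : Prime (MvPolynomial.X 0 : MvPolynomial (Fin 4) K) := MvPolynomial.X_prime
  have hd : ¬ (MvPolynomial.X 0 : MvPolynomial (Fin 4) K) ∣
      MvPolynomial.X 2 ^ 2 * MvPolynomial.X 1 := by
    intro h
    rcases h0.dvd_or_dvd h with h1 | h1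
    · have := MvPolynomial.X_dvd_X.1 (h0.dvd_of_dvd_pow h1)
      exact absurd this (by decide)
    · have := MvPolynomial.X_dvd_X.1 h1
      exact absurd this (by decide)
  have h1 := Polynomial.irreducible_C_mul_X_add_C (pow_ne_zero 2 h0.ne_zero)
    (isRelPrime_sq h0 hd)
  have h2 := h1.prime
  have h3 : MvPolynomial.finSuccEquiv K 4 (P3 K) =
      Polynomial.C (MvPolynomial.X 0 ^ 2) * Polynomial.X +
        Polynomial.C (MvPolynomial.X 2 ^ 2 * MvPolynomial.X 1) := by
    have e1 : (1 : Fin 5) = Fin.succ 0 := rfl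
    have e2 : (2 : Fin 5) = Fin.succ 1 := rfl
    have e3 : (3 : Fin 5) = Fin.succ 2 := rfl
    rw [P3, map_add, map_mul, map_mul, map_pow, map_pow, e1, e2, e3,
      MvPolynomial.finSuccEquiv_X_succ, MvPolynomial.finSuccEquiv_X_succ,
      MvPolynomial.finSuccEquiv_X_succ, MvPolynomial.finSuccEquiv_X_zero, map_mul, map_pow, map_pow]
  rw [← h3] at h2
  exact (MulEquiv.prime_iff (MvPolynomial.finSuccEquiv K 4)).1 h2

open Polynomial in
theorem hom_P (a b : K) : hom (Fin 5) K (P a b) = C (P3 K) * X ^ 3 +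
    C (MvPolynomial.C a * (MvPolynomial.X 2 * MvPolynomial.X 0)) * X ^ 2 +
    C (MvPolynomial.C b * MvPolynomial.X 4) * X + C 1 := by
  simp only [P, P3, map_add, map_mul, map_pow, map_one, hom_X, hom_C]
  ring

theorem P3_ne_zero : P3 K ≠ 0 := prime_P3.ne_zero

theorem top_P (a b : K) : top (P a b) = P3 K := by
  rw [top, hom_P, Polynomial.leadingCoeff_cubic P3_ne_zero]

theorem degree_P (a b : K) : (hom (Fin 5) K (P a b)).degree = 3 := by
  rw [hom_P, Polynomial.degree_cubic P3_ne_zero]

theorem P_ne_zero (a b : K) : P a b ≠ 0 := by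
  intro h
  have := degree_P a b
  rw [h, map_zero, Polynomial.degree_zero] at this
  exact absurd this (by decide)

theorem totalDegree_P (a b : K) : (P a b).totalDegree = 3 := by
  apply le_antisymm
  · unfold P
    refine (MvPolynomial.totalDegree_add _ _).trans (max_le ?_ ?_)
    · refine (MvPolynomial.totalDegree_add _ _).trans (max_le ?_ ?_)
      · refine (MvPolynomial.totalDegree_add _ _).trans (max_le ?_ ?_)
        · refine (MvPolynomial.totalDegree_add _ _).trans (max_le ?_ ?_)
          · refine (MvPolynomial.totalDegree_mul _ _).trans ?_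
            rw [MvPolynomial.totalDegree_X_pow, MvPolynomial.totalDegree_X]
          · refine (MvPolynomial.totalDegree_mul _ _).trans ?_
            rw [MvPolynomial.totalDegree_X_pow, MvPolynomial.totalDegree_X]
        · simp
      · refine (MvPolynomial.totalDegree_mul _ _).trans ?_
        rw [MvPolynomial.totalDegree_C]
        refine (Nat.add_le_add_left (MvPolynomial.totalDegree_mul _ _) _).trans ?_
        rw [MvPolynomial.totalDegree_X, MvPolynomial.totalDegree_X]
        norm_num
    · refine (MvPolynomial.totalDegree_mul _ _).trans ?_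
      rw [MvPolynomial.totalDegree_C, MvPolynomial.totalDegree_X]
      norm_num
  · have h := natDegree_hom_le (P a b)
    rwa [Polynomial.natDegree_eq_of_degree_eq_some (degree_P a b)] at h

/-- The lower bound for the rank, from factoriality. -/
theorem not_two {S : Type*} [CommRing S] [IsDomain S] [UniqueFactorizationMonoid S] (a b : K)
    (mk : MvPolynomial (Fin 5) K →+* S) (hsurj : Function.Surjective mk)
    (hker : ∀ g, mk g = 0 ↔ P a b ∣ g) (r : ℕ) (hr : IsSumOfProducts 3 (P a b) r) : 3 ≤ r := by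
  obtain ⟨Q, R, hdeg, heq⟩ := hr
  by_contra hlt
  push Not at hlt
  have hd : ∀ f : MvPolynomial (Fin 5) K, f.totalDegree < 3 →
      (hom (Fin 5) K f).degree < (hom (Fin 5) K (P a b)).degree := by
    intro f hf
    rw [degree_P]
    by_cases h0 : hom (Fin 5) K f = 0
    · rw [h0, Polynomial.degree_zero]
      exact bot_lt_iff_ne_bot.2 (by decide)
    · rw [Polynomial.degree_eq_natDegree h0]
      exact_mod_cast (natDegree_hom_le f).trans_lt hf
  have h00 : (hom (Fin 5) K (0 : MvPolynomial (Fin 5) K)).degree <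
      (hom (Fin 5) K (P a b)).degree := hd 0 (by simp)
  have hP : Prime (top (P a b)) := by
    rw [top_P]
    exact prime_P3
  have key := fun Q1 R1 Q2 R2 => no_two (P a b) (P_ne_zero a b) hP mk hsurj hker Q1 R1 Q2 R2
  interval_cases r
  · refine key 0 0 0 0 h00 h00 h00 h00 ?_
    rw [heq]
    simp
  · refine key (Q 0) (R 0) 0 0 (hd _ (hdeg 0).1) (hd _ (hdeg 0).2) h00 h00 ?_
    rw [heq]
    simp
  · refine key (Q 0) (R 0) (Q 1) (R 1) (hd _ (hdeg 0).1) (hd _ (hdeg 0).2) (hd _ (hdeg 1).1)
      (hd _ (hdeg 1).2) ?_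
    rw [heq, Fin.sum_univ_two]

/-- the values of the variables in the case `b ≠ 0` -/
noncomputable def vals (a b : K) : Fin 5 → MvPolynomial (Fin 4) K :=
  ![MvPolynomial.X 0, MvPolynomial.X 1, MvPolynomial.X 2, MvPolynomial.X 3,
    -(MvPolynomial.C b⁻¹ * (MvPolynomial.X 1 ^ 2 * MvPolynomial.X 0 +
      MvPolynomial.X 3 ^ 2 * MvPolynomial.X 2 + 1 +
      MvPolynomial.C a * (MvPolynomial.X 2 * MvPolynomial.X 0)))]

theorem three_le_of_ne (a b : K) (hb : b ≠ 0) (r : ℕ) (hr : IsSumOfProducts 3 (P a b) r) :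
    3 ≤ r := by
  let mk : MvPolynomial (Fin 5) K →ₐ[K] MvPolynomial (Fin 4) K := MvPolynomial.aeval (vals a b)
  have hcomp : ∀ f, mk (MvPolynomial.rename Fin.castSucc f) = f := by
    intro f
    have h1 : vals a b ∘ Fin.castSucc = MvPolynomial.X := by
      funext i
      fin_cases i <;> rfl
    simp only [mk]
    rw [MvPolynomial.aeval_rename, h1, MvPolynomial.aeval_X_left_apply]
  have hbC : (MvPolynomial.C b : MvPolynomial (Fin 5) K) * MvPolynomial.C b⁻¹ = 1 := by
    rw [← MvPolynomial.C_mul, mul_inv_cancel₀ hb, MvPolynomial.C_1]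
  have hbC' : (MvPolynomial.C b : MvPolynomial (Fin 4) K) * MvPolynomial.C b⁻¹ = 1 := by
    rw [← MvPolynomial.C_mul, mul_inv_cancel₀ hb, MvPolynomial.C_1]
  have hP0 : mk (P a b) = 0 := by
    simp only [mk, P, map_add, map_mul, map_pow, map_one, MvPolynomial.aeval_X,
      MvPolynomial.aeval_C, MvPolynomial.algebraMap_eq]
    have v0 : vals a b 0 = MvPolynomial.X 0 := rfl
    have v1 : vals a b 1 = MvPolynomial.X 1 := rfl
    have v2 : vals a b 2 = MvPolynomial.X 2 := rfl
    have v3 : vals a b 3 = MvPolynomial.X 3 := rfl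
    have v4 : vals a b 4 = -(MvPolynomial.C b⁻¹ * (MvPolynomial.X 1 ^ 2 * MvPolynomial.X 0 +
      MvPolynomial.X 3 ^ 2 * MvPolynomial.X 2 + 1 +
      MvPolynomial.C a * (MvPolynomial.X 2 * MvPolynomial.X 0))) := rfl
    rw [v0, v1, v2, v3, v4]
    linear_combination (-(MvPolynomial.X 1 ^ 2 * MvPolynomial.X 0 +
      MvPolynomial.X 3 ^ 2 * MvPolynomial.X 2 + 1 +
      MvPolynomial.C a * (MvPolynomial.X 2 * MvPolynomial.X 0)) :
        MvPolynomial (Fin 4) K) * hbC'
  have hker : ∀ g, mk g = 0 ↔ P a b ∣ g := by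
    intro g
    constructor
    · intro hg
      have h1 : ((Ideal.Quotient.mkₐ K (Ideal.span {P a b})).comp
          (MvPolynomial.rename Fin.castSucc)).comp mk =
          Ideal.Quotient.mkₐ K (Ideal.span {P a b}) := by
        apply MvPolynomial.algHom_ext
        intro i
        have h2 : P a b ∣ MvPolynomial.rename Fin.castSucc (mk (MvPolynomial.X i)) -
            MvPolynomial.X i := by
          fin_cases i
          · simp [mk, vals]
          · simp [mk, vals]
          · simp [mk, vals]
          · simp [mk, vals]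
          · refine ⟨- MvPolynomial.C b⁻¹, ?_⟩
            simp only [mk, MvPolynomial.aeval_X]
            have v4 : vals a b (4 : Fin 5) = -(MvPolynomial.C b⁻¹ * (MvPolynomial.X 1 ^ 2 *
              MvPolynomial.X 0 + MvPolynomial.X 3 ^ 2 * MvPolynomial.X 2 + 1 +
              MvPolynomial.C a * (MvPolynomial.X 2 * MvPolynomial.X 0))) := rfl
            change MvPolynomial.rename Fin.castSucc (vals a b (4 : Fin 5)) -
              MvPolynomial.X (4 : Fin 5) = _
            rw [v4]
            simp only [map_neg, map_mul, map_add, map_pow, map_one, MvPolynomial.rename_C,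
              MvPolynomial.rename_X]
            have c0 : Fin.castSucc (0 : Fin 4) = (0 : Fin 5) := rfl
            have c1 : Fin.castSucc (1 : Fin 4) = (1 : Fin 5) := rfl
            have c2 : Fin.castSucc (2 : Fin 4) = (2 : Fin 5) := rfl
            have c3 : Fin.castSucc (3 : Fin 4) = (3 : Fin 5) := rfl
            rw [c0, c1, c2, c3, P]
            linear_combination (MvPolynomial.X 4 : MvPolynomial (Fin 5) K) * hbC
        simp only [AlgHom.comp_apply, Ideal.Quotient.mkₐ_eq_mk]
        rw [← sub_eq_zero, ← map_sub, Ideal.Quotient.eq_zero_iff_mem, Ideal.mem_span_singleton]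
        exact h2
      have h3 := congrArg (fun φ => φ g) h1
      simp only [AlgHom.comp_apply, hg, map_zero, Ideal.Quotient.mkₐ_eq_mk] at h3
      rw [← Ideal.mem_span_singleton, ← Ideal.Quotient.eq_zero_iff_mem]
      exact h3.symm
    · rintro ⟨c, rfl⟩
      rw [map_mul, hP0, zero_mul]
  exact not_two a b mk.toRingHom (fun f => ⟨_, hcomp f⟩) hker r hr

/-- the ideal `(m, n² e + 1)` is prime -/
theorem isPrime_span : (Ideal.span {(MvPolynomial.X 0 : MvPolynomial (Fin 4) K),
    MvPolynomial.X 2 ^ 2 * MvPolynomial.X 1 + 1}).IsPrime := by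
  set h' : MvPolynomial (Fin 3) K := MvPolynomial.X 1 ^ 2 * MvPolynomial.X 0 + 1 with hh'
  have hprime : Prime h' := by
    have h0 : Prime (MvPolynomial.X 0 : MvPolynomial (Fin 2) K) := MvPolynomial.X_prime
    have h1 := Polynomial.irreducible_C_mul_X_add_C (pow_ne_zero 2 h0.ne_zero)
      (isRelPrime_one_right (x := (MvPolynomial.X 0 : MvPolynomial (Fin 2) K) ^ 2))
    have h2 := h1.prime
    have h3 : MvPolynomial.finSuccEquiv K 2 h' =
        Polynomial.C (MvPolynomial.X 0 ^ 2) * Polynomial.X + Polynomial.C 1 := by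
      have e1 : (1 : Fin 3) = Fin.succ 0 := rfl
      rw [hh', map_add, map_mul, map_pow, map_one, e1, MvPolynomial.finSuccEquiv_X_succ,
        MvPolynomial.finSuccEquiv_X_zero, map_pow, map_one]
    rw [← h3] at h2
    exact (MulEquiv.prime_iff (MvPolynomial.finSuccEquiv K 2)).1 h2
  have hI : (Ideal.span {h'}).IsPrime := (Ideal.span_singleton_prime hprime.ne_zero).2 hprime
  let θ : MvPolynomial (Fin 4) K →ₐ[K] MvPolynomial (Fin 3) K :=
    MvPolynomial.aeval (Fin.cons 0 MvPolynomial.X)
  have hθ0 : θ (MvPolynomial.X 0) = 0 := by simp [θ]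
  have hθs : ∀ i : Fin 3, θ (MvPolynomial.X i.succ) = MvPolynomial.X i := by
    intro i
    simp [θ]
  have hθh : θ (MvPolynomial.X 2 ^ 2 * MvPolynomial.X 1 + 1) = h' := by
    have e1 : (1 : Fin 4) = Fin.succ 0 := rfl
    have e2 : (2 : Fin 4) = Fin.succ 1 := rfl
    rw [map_add, map_mul, map_pow, map_one, e1, e2, hθs, hθs]
  have hcomap : Ideal.span {(MvPolynomial.X 0 : MvPolynomial (Fin 4) K),
      MvPolynomial.X 2 ^ 2 * MvPolynomial.X 1 + 1} = (Ideal.span {h'}).comap θ := by
    apply le_antisymm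
    · rw [Ideal.span_le]
      rintro x (rfl | rfl)
      · rw [SetLike.mem_coe, Ideal.mem_comap, hθ0]
        exact zero_mem _
      · rw [SetLike.mem_coe, Ideal.mem_comap, hθh]
        exact Ideal.mem_span_singleton_self _
    · intro f hf
      rw [Ideal.mem_comap, Ideal.mem_span_singleton] at hf
      obtain ⟨g, hg⟩ := hf
      have h1 : ((Ideal.Quotient.mkₐ K (Ideal.span {(MvPolynomial.X 0 :
          MvPolynomial (Fin 4) K)})).comp (MvPolynomial.rename Fin.succ)).comp θ =
          Ideal.Quotient.mkₐ K (Ideal.span {(MvPolynomial.X 0 : MvPolynomial (Fin 4) K)}) := by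
        apply MvPolynomial.algHom_ext
        intro i
        refine Fin.cases ?_ (fun i => ?_) i
        · simp only [AlgHom.comp_apply, hθ0, map_zero, Ideal.Quotient.mkₐ_eq_mk]
          exact (Ideal.Quotient.eq_zero_iff_mem.2 (Ideal.mem_span_singleton_self _)).symm
        · simp only [AlgHom.comp_apply, hθs, MvPolynomial.rename_X]
      have h2 := congrArg (fun φ => φ f) h1
      simp only [AlgHom.comp_apply, Ideal.Quotient.mkₐ_eq_mk] at h2
      rw [← sub_eq_zero, ← map_sub, Ideal.Quotient.eq_zero_iff_mem, hg, map_mul] at h2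
      have h3 : MvPolynomial.rename Fin.succ h' =
          (MvPolynomial.X 2 ^ 2 * MvPolynomial.X 1 + 1 : MvPolynomial (Fin 4) K) := by
        have e1 : Fin.succ (0 : Fin 3) = (1 : Fin 4) := rfl
        have e2 : Fin.succ (1 : Fin 3) = (2 : Fin 4) := rfl
        rw [hh', map_add, map_mul, map_pow, map_one, MvPolynomial.rename_X, MvPolynomial.rename_X,
          e1, e2]
      rw [h3] at h2
      have h4 : f = (MvPolynomial.X 2 ^ 2 * MvPolynomial.X 1 + 1) * MvPolynomial.rename Fin.succ g -
          ((MvPolynomial.X 2 ^ 2 * MvPolynomial.X 1 + 1) * MvPolynomial.rename Fin.succ g - f) := by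
        ring
      rw [h4]
      refine Ideal.sub_mem _ (Ideal.mul_mem_right _ _ (Ideal.subset_span ?_)) ?_
      · exact Set.mem_insert_of_mem _ rfl
      · exact Ideal.span_mono (Set.singleton_subset_iff.2 (Set.mem_insert _ _)) h2
  rw [hcomap]
  exact Ideal.comap_isPrime θ _

theorem three_le_zero (r : ℕ) (hr : IsSumOfProducts 3 (P (0 : K) 0) r) : 3 ≤ r := by
  have h0 : Prime (MvPolynomial.X 0 : MvPolynomial (Fin 4) K) := MvPolynomial.X_prime
  have hd : ¬ (MvPolynomial.X 0 : MvPolynomial (Fin 4) K) ∣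
      MvPolynomial.X 2 ^ 2 * MvPolynomial.X 1 + 1 := by
    rintro ⟨c, hc⟩
    have h1 := congrArg (MvPolynomial.eval (0 : Fin 4 → K)) hc
    simp at h1
  set F : Polynomial (MvPolynomial (Fin 4) K) := Polynomial.C (MvPolynomial.X 0 ^ 2) *
    Polynomial.X + Polynomial.C (MvPolynomial.X 2 ^ 2 * MvPolynomial.X 1 + 1) with hF
  have hmk : ∀ g, Ideal.Quotient.mk (Ideal.span {F}) g = 0 ↔ F ∣ g := fun g => by
    rw [Ideal.Quotient.eq_zero_iff_mem, Ideal.mem_span_singleton]
  obtain ⟨hdom, hufd⟩ := nagata (S := Polynomial (MvPolynomial (Fin 4) K) ⧸ Ideal.span {F})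
    (MvPolynomial.X 0 : MvPolynomial (Fin 4) K)
    (MvPolynomial.X 2 ^ 2 * MvPolynomial.X 1 + 1) h0 isPrime_span hd 2 (by norm_num)
    (Ideal.Quotient.mk (Ideal.span {F})) Ideal.Quotient.mk_surjective (fun g => by rw [← hF]; exact hmk g)
  have hPF : MvPolynomial.finSuccEquiv K 4 (P (0 : K) 0) = F := by
    have e1 : (1 : Fin 5) = Fin.succ 0 := rfl
    have e2 : (2 : Fin 5) = Fin.succ 1 := rfl
    have e3 : (3 : Fin 5) = Fin.succ 2 := rfl
    simp only [P, MvPolynomial.C_0, zero_mul, add_zero]
    rw [map_add, map_add, map_mul, map_mul, map_pow, map_pow, e1, e2, e3,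
      MvPolynomial.finSuccEquiv_X_succ, MvPolynomial.finSuccEquiv_X_succ,
      MvPolynomial.finSuccEquiv_X_succ, MvPolynomial.finSuccEquiv_X_zero, map_one, hF]
    simp only [map_add, map_mul, map_pow, map_one]
    ring
  refine not_two (S := Polynomial (MvPolynomial (Fin 4) K) ⧸ Ideal.span {F}) 0 0
    ((Ideal.Quotient.mk (Ideal.span {F})).comp
      (MvPolynomial.finSuccEquiv K 4 : MvPolynomial (Fin 5) K ≃ₐ[K] _).toAlgHom.toRingHom) ?_ ?_ r hr
  · intro s
    obtain ⟨g, rfl⟩ := Ideal.Quotient.mk_surjective s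
    obtain ⟨f, rfl⟩ := (MvPolynomial.finSuccEquiv K 4).surjective g
    exact ⟨f, rfl⟩
  · intro g
    change Ideal.Quotient.mk (Ideal.span {F}) (MvPolynomial.finSuccEquiv K 4 g) = 0 ↔ _
    rw [hmk, ← hPF]
    exact map_dvd_iff _

/-! ### Upper bounds -/

theorem le_three (a b : K) : IsSumOfProducts 3 (P a b) 3 := by
  refine ⟨![MvPolynomial.X 1 ^ 2, MvPolynomial.X 3 ^ 2, 1 + MvPolynomial.C a * (MvPolynomial.X 2 *
    MvPolynomial.X 0) + MvPolynomial.C b * MvPolynomial.X 4],
    ![MvPolynomial.X 0, MvPolynomial.X 2, 1], ?_, ?_⟩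
  · intro i
    fin_cases i
    · refine ⟨?_, ?_⟩
      · change (MvPolynomial.X 1 ^ 2 : MvPolynomial (Fin 5) K).totalDegree < 3
        rw [MvPolynomial.totalDegree_X_pow]
        norm_num
      · change (MvPolynomial.X 0 : MvPolynomial (Fin 5) K).totalDegree < 3
        rw [MvPolynomial.totalDegree_X]
        norm_num
    · refine ⟨?_, ?_⟩
      · change (MvPolynomial.X 3 ^ 2 : MvPolynomial (Fin 5) K).totalDegree < 3
        rw [MvPolynomial.totalDegree_X_pow]
        norm_num
      · change (MvPolynomial.X 2 : MvPolynomial (Fin 5) K).totalDegree < 3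
        rw [MvPolynomial.totalDegree_X]
        norm_num
    · refine ⟨?_, ?_⟩
      · change (1 + MvPolynomial.C a * (MvPolynomial.X 2 * MvPolynomial.X 0) +
          MvPolynomial.C b * MvPolynomial.X 4 : MvPolynomial (Fin 5) K).totalDegree < 3
        refine (MvPolynomial.totalDegree_add _ _).trans_lt (max_lt ?_ ?_)
        · refine (MvPolynomial.totalDegree_add _ _).trans_lt (max_lt (by simp) ?_)
          refine (MvPolynomial.totalDegree_mul _ _).trans_lt ?_
          rw [MvPolynomial.totalDegree_C]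
          refine (Nat.add_le_add_left (MvPolynomial.totalDegree_mul _ _) _).trans_lt ?_
          rw [MvPolynomial.totalDegree_X, MvPolynomial.totalDegree_X]
          norm_num
        · refine (MvPolynomial.totalDegree_mul _ _).trans_lt ?_
          rw [MvPolynomial.totalDegree_C, MvPolynomial.totalDegree_X]
          norm_num
      · change (1 : MvPolynomial (Fin 5) K).totalDegree < 3
        simp
  · rw [Fin.sum_univ_three]
    simp only [Matrix.cons_val_zero, Matrix.cons_val_one, Matrix.cons_val]
    rw [P]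
    ring

theorem le_two [IsAlgClosed K] (a : K) (ha : a ≠ 0) : IsSumOfProducts 3 (P a 0) 2 := by
  obtain ⟨s, hs⟩ := IsAlgClosed.exists_pow_nat_eq a (n := 2) (by norm_num)
  have hs0 : s ≠ 0 := by
    rintro rfl
    exact ha (by rw [← hs]; ring)
  have t1 : ∀ c : K, (MvPolynomial.C c * (MvPolynomial.X 1 * MvPolynomial.X 3) :
      MvPolynomial (Fin 5) K).totalDegree < 3 := by
    intro c
    refine (MvPolynomial.totalDegree_mul _ _).trans_lt ?_
    rw [MvPolynomial.totalDegree_C]
    refine (Nat.add_le_add_left (MvPolynomial.totalDegree_mul _ _) _).trans_lt ?_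
    rw [MvPolynomial.totalDegree_X, MvPolynomial.totalDegree_X]
    norm_num
  refine ⟨![MvPolynomial.X 1 ^ 2 + MvPolynomial.C a * MvPolynomial.X 2,
      1 - MvPolynomial.C s⁻¹ * (MvPolynomial.X 1 * MvPolynomial.X 3)],
    ![MvPolynomial.X 0 + MvPolynomial.C a⁻¹ * MvPolynomial.X 3 ^ 2,
      1 + MvPolynomial.C s⁻¹ * (MvPolynomial.X 1 * MvPolynomial.X 3)], ?_, ?_⟩
  · intro i
    fin_cases i
    · refine ⟨?_, ?_⟩
      · change (MvPolynomial.X 1 ^ 2 + MvPolynomial.C a * MvPolynomial.X 2 :
          MvPolynomial (Fin 5) K).totalDegree < 3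
        refine (MvPolynomial.totalDegree_add _ _).trans_lt (max_lt ?_ ?_)
        · rw [MvPolynomial.totalDegree_X_pow]
          norm_num
        · refine (MvPolynomial.totalDegree_mul _ _).trans_lt ?_
          rw [MvPolynomial.totalDegree_C, MvPolynomial.totalDegree_X]
          norm_num
      · change (MvPolynomial.X 0 + MvPolynomial.C a⁻¹ * MvPolynomial.X 3 ^ 2 :
          MvPolynomial (Fin 5) K).totalDegree < 3
        refine (MvPolynomial.totalDegree_add _ _).trans_lt (max_lt ?_ ?_)
        · rw [MvPolynomial.totalDegree_X]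
          norm_num
        · refine (MvPolynomial.totalDegree_mul _ _).trans_lt ?_
          rw [MvPolynomial.totalDegree_C, MvPolynomial.totalDegree_X_pow]
          norm_num
    · refine ⟨?_, ?_⟩
      · change (1 - MvPolynomial.C s⁻¹ * (MvPolynomial.X 1 * MvPolynomial.X 3) :
          MvPolynomial (Fin 5) K).totalDegree < 3
        exact (MvPolynomial.totalDegree_sub _ _).trans_lt (max_lt (by simp) (t1 _))
      · change (1 + MvPolynomial.C s⁻¹ * (MvPolynomial.X 1 * MvPolynomial.X 3) :
          MvPolynomial (Fin 5) K).totalDegree < 3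
        exact (MvPolynomial.totalDegree_add _ _).trans_lt (max_lt (by simp) (t1 _))
  · rw [Fin.sum_univ_two]
    simp only [Matrix.cons_val_zero, Matrix.cons_val_one]
    have h1 : (MvPolynomial.C a : MvPolynomial (Fin 5) K) * MvPolynomial.C a⁻¹ = 1 := by
      rw [← MvPolynomial.C_mul, mul_inv_cancel₀ ha, MvPolynomial.C_1]
    have h2 : (MvPolynomial.C s⁻¹ : MvPolynomial (Fin 5) K) ^ 2 = MvPolynomial.C a⁻¹ := by
      rw [← MvPolynomial.C_pow, inv_pow, hs]
    rw [P, MvPolynomial.C_0, zero_mul, add_zero]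
    linear_combination (- MvPolynomial.X 2 * MvPolynomial.X 3 ^ 2 : MvPolynomial (Fin 5) K) * h1 +
      (MvPolynomial.X 1 ^ 2 * MvPolynomial.X 3 ^ 2 : MvPolynomial (Fin 5) K) * h2

theorem rank_eq_three (a b : K) (h : ∀ r, IsSumOfProducts 3 (P a b) r → 3 ≤ r) :
    rank (P a b) = 3 := by
  unfold rank
  rw [totalDegree_P]
  apply le_antisymm
  · exact Nat.sInf_le (le_three a b)
  · exact h _ (Nat.sInf_mem (s := {r | IsSumOfProducts 3 (P a b) r}) ⟨3, le_three a b⟩)

theorem rank_le_three (a b : K) : rank (P a b) ≤ 3 := by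
  unfold rank
  rw [totalDegree_P]
  exact Nat.sInf_le (le_three a b)

theorem rank_le_two [IsAlgClosed K] (a : K) (ha : a ≠ 0) : rank (P a 0) ≤ 2 := by
  unfold rank
  rw [totalDegree_P]
  exact Nat.sInf_le (le_two a ha)

/-- the family -/
noncomputable def family (K : Type*) [Field K] :
    MvPolynomial (Fin 5) (MvPolynomial (Fin 2) K) :=
  MvPolynomial.X 1 ^ 2 * MvPolynomial.X 0 + MvPolynomial.X 3 ^ 2 * MvPolynomial.X 2 + 1 +
    MvPolynomial.C (MvPolynomial.X 0) * (MvPolynomial.X 2 * MvPolynomial.X 0) +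
    MvPolynomial.C (MvPolynomial.X 1) * MvPolynomial.X 4

theorem member_family (s : Fin 2 → K) : member (family K) s = P (s 0) (s 1) := by
  simp [member, family, P]

end Family

/-- Over every algebraically closed field `K` there is a family of polynomials of degree exactly
three in five variables, parametrized by the affine plane, for which the set of the points at which
the Schmidt rank attains its maximum (the value three) is not locally closed. -/
theorem result (K : Type*) [Field K] [IsAlgClosed K] :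
    ∃ F : MvPolynomial (Fin 5) (MvPolynomial (Fin 2) K),
      (∀ s, (member F s).totalDegree = 3) ∧ (maxLocus F).Nonempty ∧
        ¬ IsZariskiLocallyClosed (maxLocus F) := by
  have h0 : ∀ t : Fin 2 → K, t ∈ maxLocus (family K) ↔ rank (P (t 0) (t 1)) = 3 := by
    intro t
    constructor
    · intro ht
      have h1 := ht 0
      rw [member_family, member_family] at h1
      have h2 : rank (P ((0 : Fin 2 → K) 0) ((0 : Fin 2 → K) 1)) = 3 :=
        rank_eq_three 0 0 three_le_zero
      rw [h2] at h1
      exact le_antisymm (rank_le_three _ _) h1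
    · intro ht s
      rw [member_family, member_family, ht]
      exact rank_le_three _ _
  have hzero : (0 : Fin 2 → K) ∈ maxLocus (family K) :=
    (h0 0).2 (rank_eq_three 0 0 three_le_zero)
  have hne : ∀ t : Fin 2 → K, t 1 ≠ 0 → t ∈ maxLocus (family K) := fun t ht =>
    (h0 t).2 (rank_eq_three _ _ (three_le_of_ne _ _ ht))
  have hnot : ∀ a : K, a ≠ 0 → ![a, 0] ∉ maxLocus (family K) := by
    intro a ha h
    have h1 := (h0 _).1 h
    have h2 := rank_le_two a ha
    simp only [Matrix.cons_val_zero, Matrix.cons_val_one] at h1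
    omega
  refine ⟨family K, ?_, ⟨0, hzero⟩, ?_⟩
  · intro s
    rw [member_family, totalDegree_P]
  · rintro ⟨Z, W, ⟨A, rfl⟩, ⟨B, rfl⟩, hU⟩
    have hA : ∀ p ∈ A, p = 0 := by
      intro p hp
      have h1 : p * MvPolynomial.X 1 = 0 := by
        apply MvPolynomial.funext
        intro t
        rw [map_mul, map_zero, MvPolynomial.eval_X]
        by_cases ht : t 1 = 0
        · rw [ht, mul_zero]
        · have h2 := hne t ht
          rw [hU] at h2
          rw [h2.1 p hp, zero_mul]
      exact (mul_eq_zero.1 h1).resolve_right (MvPolynomial.X_ne_zero _)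
    have hB : ∀ p ∈ B, ∀ a : K, a ≠ 0 → MvPolynomial.eval ![a, 0] p = 0 := by
      intro p hp a ha
      by_contra hne0
      apply hnot a ha
      rw [hU]
      refine ⟨fun q hq => by rw [hA q hq, map_zero], fun hW => hne0 (hW p hp)⟩
    have hB0 : ∀ p ∈ B, MvPolynomial.eval (0 : Fin 2 → K) p = 0 := by
      intro p hp
      let q : Polynomial K := MvPolynomial.aeval ![Polynomial.X, 0] p
      have hq : ∀ a : K, q.eval a = MvPolynomial.eval ![a, 0] p := by
        intro a
        have h1 : (Polynomial.aeval a).comp (MvPolynomial.aeval ![(Polynomial.X : Polynomial K), 0])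
            = MvPolynomial.aeval ![a, 0] := by
          apply MvPolynomial.algHom_ext
          intro i
          fin_cases i <;> simp
        have h2 := congrArg (fun φ => φ p) h1
        simp only [AlgHom.comp_apply] at h2
        rw [MvPolynomial.aeval_eq_eval] at h2
        rw [← h2, Polynomial.aeval_def, Polynomial.eval₂_eq_eval_map]
        simp [q]
      have hq0 : q * Polynomial.X = 0 := by
        apply Polynomial.funext
        intro a
        rw [Polynomial.eval_mul, Polynomial.eval_X, Polynomial.eval_zero]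
        by_cases ha : a = 0
        · rw [ha, mul_zero]
        · rw [hq, hB p hp a ha, zero_mul]
      have hq1 : q = 0 := (mul_eq_zero.1 hq0).resolve_right Polynomial.X_ne_zero
      have h3 := hq 0
      rw [hq1, Polynomial.eval_zero] at h3
      have h4 : (![0, 0] : Fin 2 → K) = 0 := by
        funext i
        fin_cases i <;> rfl
      rw [← h4, ← h3]
    have h1 := hzero
    rw [hU] at h1
    exact h1.2 hB0

end Pool.Agent.Results.MP_60b600_ag.NotLocallyClosed
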